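import Pool.Agent.Q138.PS.TT
import Pool.Agent.Results.MP_d37f77_nt.AlmostAllTwists
import Pool.Agent.Results.MP_d37f77_nt.TwoDescentMixedFactors

/-!
# 2-descent on the twists by the integers `± ⌊α P(n)⌋`

Let `q ≥ 2`. Outside a set of real numbers of Hausdorff dimension at most `q / (q + 1 / (q 2 ^ (q - 1)))` (that is
`8 / 9` for `q = 2`) every `α > 0` has the following property. Let `f_1, ..., f_k ∈ ℤ[x]` be irreducible over `ℚ` and
pairwise non-associated, all of even degree, or none of them linear, of even total degree and at least four of them of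
odd degree. Then for ALL integral polynomials `P` of degree `q` with positive leading coefficient and coefficients of
size at most `N ^ η`, and for all but `O (N / (log N) ^ ε)` of the `n ≤ N`, no 2-covering of the curves
`± ⌊α P(n)⌋ y² = f_1(x) ... f_k(x)` has points everywhere locally; so these curves have no rational points. With linear
factors (in general position) the same holds for the coverings which do not lie over a rational Weierstrass point.
-/

set_option autoImplicit false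

open Finset Filter Topology MeasureTheory Polynomial
open Pool.Agent.Q138.PS

namespace Pool.Agent.Results.MP_d37f77_nt.DescentAlongRealMultiples

/-- the homogenisation `F(x, w) = ∑ i, a i * x ^ i * w ^ (n - i)` of `f = ∑ i, a i * x ^ i`,
`n = deg f` -/
noncomputable def hom (f : ℤ[X]) {R : Type*} [CommRing R] (x w : R) : R :=
  ∑ i ∈ range (f.natDegree + 1), (f.coeff i : R) * x ^ i * w ^ (f.natDegree - i)

section K

variable {K : Type} [Fintype K] [DecidableEq K]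

/-- the factors are irreducible over `ℚ`, of even degree, pairwise non-associated -/
def EvenFactors (f : K → ℤ[X]) : Prop :=
  (∀ k, Irreducible ((f k).map (Int.castRingHom ℚ))) ∧ (∀ k, Even (f k).natDegree) ∧
  (∀ k l, k ≠ l → ¬ Associated ((f k).map (Int.castRingHom ℚ)) ((f l).map (Int.castRingHom ℚ)))

/-- the indices of the factors of odd degree -/
def Od (f : K → ℤ[X]) : Finset K := univ.filter (fun k => Odd (f k).natDegree)

/-- the indices of the linear factors -/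
def Ln (f : K → ℤ[X]) : Finset K := univ.filter (fun k => (f k).natDegree = 1)

/-- the value of `F k` at the zero `(-b, a)` of the linear form `F i = a x + b w` -/
noncomputable def val (f : K → ℤ[X]) (i k : K) : ℤ :=
  hom (f k) (-(f i).coeff 0) ((f i).coeff 1)

/-- the factors are irreducible over `ℚ`, pairwise non-associated, of even total degree, and at
least four of them have odd degree -/
def MixedFactors (f : K → ℤ[X]) : Prop :=
  (∀ k, Irreducible ((f k).map (Int.castRingHom ℚ))) ∧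
  (∀ k l, k ≠ l →
    ¬ Associated ((f k).map (Int.castRingHom ℚ)) ((f l).map (Int.castRingHom ℚ))) ∧
  Even (∑ k, (f k).natDegree) ∧ 4 ≤ (Od f).card

/-- the condition on the linear factors: for any two linear factors `i ≠ k` there is a product
`F T`, `T ⊆ K \ {i, k}`, of even degree, whose values at the zeros of `F i`, `F k` are not in the
same square class; if there are exactly four factors of odd degree, and these are linear, then there
are two of them, `i` and `k`, and a product `F T` of factors of even degree with this property -/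
def General (f : K → ℤ[X]) : Prop :=
  (∀ i ∈ Ln f, ∀ k ∈ Ln f, i ≠ k → ∃ T : Finset K, i ∉ T ∧ k ∉ T ∧ Even (T ∩ Od f).card ∧
    ¬ IsSquare (∏ l ∈ T, (val f i l * val f k l))) ∧
  ((Od f).card = 4 → Od f ⊆ Ln f → ∃ i ∈ Od f, ∃ k ∈ Od f, ∃ T : Finset K,
    Disjoint T (Od f) ∧ ¬ IsSquare (∏ l ∈ T, (val f i l * val f k l)))

/-- the curve `C d : d * y ^ 2 = ∏ k, F k (x, w)` has a point over the field `L` -/
def CurveHasPoint (f : K → ℤ[X]) (d : ℤ) (L : Type) [Field L] : Prop :=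
  ∃ x w y : L, (x ≠ 0 ∨ w ≠ 0) ∧ d * y ^ 2 = ∏ k, hom (f k) x w

/-- the curve `D δ : F k (x, w) = δ k * y k ^ 2` (all `k`) has a point over the field `L` -/
def CoveringHasPoint (f : K → ℤ[X]) (δ : K → ℤ) (L : Type) [Field L] : Prop :=
  ∃ x w : L, (x ≠ 0 ∨ w ≠ 0) ∧ ∀ k, ∃ y : L, hom (f k) x w = δ k * y ^ 2

/-- `D δ` is a covering of `C d` (`d * ∏ k, δ k` is a square) with points everywhere locally -/
def Soluble (f : K → ℤ[X]) (d : ℤ) (δ : K → ℤ) : Prop :=
  (∀ k, δ k ≠ 0) ∧ IsSquare (d * ∏ k, δ k) ∧ CoveringHasPoint f δ ℝ ∧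
    ∀ (p : ℕ) [Fact p.Prime], CoveringHasPoint f δ ℚ_[p]

/-- the covering `D δ` is of constant type: for some linear factor `i` with zero `P` and all
products `F T` of even degree, `i ∉ T`, the number `δ T * F T (P)` is a square -/
def ConstantType (f : K → ℤ[X]) (δ : K → ℤ) : Prop :=
  ∃ i, (f i).natDegree = 1 ∧ ∀ T : Finset K, i ∉ T → Even (∑ k ∈ T, (f k).natDegree) →
    IsSquare (∏ k ∈ T, (δ k * val f i k))

end K

/-- `X² - 13`, `(X - 1)² - 17`, `(X - 2)² - 221` -/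
noncomputable def ex : Fin 3 → ℤ[X] := ![X ^ 2 - 13, (X - 1) ^ 2 - 17, (X - 2) ^ 2 - 221]

/-- `X² + X + 1`, `X³ - 2`, `X³ - 3`, `X³ - 5`, `X³ - 19` -/
noncomputable def ex' : Fin 5 → ℤ[X] :=
  ![X ^ 2 + X + 1, X ^ 3 - 2, X ^ 3 - 3, X ^ 3 - 5, X ^ 3 - 19]

open Classical in
/-- the number of the pairs of an integer `1 ≤ n ≤ N` and a sign `s` for which `d = s ⌊α P(n)⌋` is not zero and has
the property `Z` -/
noncomputable def count (α : ℝ) (P : ℤ[X]) (N : ℕ) (Z : ℤ → Prop) : ℕ :=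
  ((Icc 1 N ×ˢ ({1, -1} : Finset ℤ)).filter fun x : ℕ × ℤ =>
    x.2 * (⌊α * ((P.eval (x.1 : ℤ) : ℤ) : ℝ)⌋₊ : ℤ) ≠ 0 ∧
      Z (x.2 * (⌊α * ((P.eval (x.1 : ℤ) : ℤ) : ℝ)⌋₊ : ℤ))).card

/-- the property `Z` holds for at most `C N / (log N) ^ ε` of the numbers `± ⌊α P(n)⌋`, `n ≤ N`, uniformly in the
polynomials `P` of degree `q` with positive leading coefficient and coefficients of size at most `N ^ η` -/
def Few (q : ℕ) (α : ℝ) (Z : ℤ → Prop) : Prop :=
  ∃ η ε C : ℝ, 0 < η ∧ 0 < ε ∧ ∀ᶠ N : ℕ in atTop, ∀ P : ℤ[X], P.natDegree = q → 0 < P.leadingCoeff →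
    (∀ j, |((P.coeff j : ℤ) : ℝ)| ≤ (N : ℝ) ^ η) → (count α P N Z : ℝ) ≤ C * N * (Real.log N) ^ (-ε)

/-- the two exceptional sets -/
def bad (i : (Σ k : ℕ, (Fin k → ℤ[X])) × Bool) (d : ℤ) : Prop :=
  ∃ δ, Soluble i.1.2 d δ ∧ (i.2 = true → ¬ ConstantType i.1.2 δ)

theorem countable_pol : Countable ℤ[X] :=
  Cardinal.mk_le_aleph0_iff.1 (by
    refine (Polynomial.cardinalMk_le_max (R := ℤ)).trans ?_
    simp)

theorem sq_of (a m : ℤ) (hm : m ≠ 0) (h : IsSquare (a * m ^ 2)) : IsSquare a := by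
  obtain ⟨r, hr⟩ := h
  have h1 : m ^ 2 ∣ r ^ 2 := ⟨a, by linear_combination -hr⟩
  rw [Int.pow_dvd_pow_iff two_ne_zero] at h1
  obtain ⟨t, rfl⟩ := h1
  refine ⟨t, ?_⟩
  have h2 : m ^ 2 ≠ 0 := pow_ne_zero _ hm
  apply mul_right_cancel₀ h2
  linear_combination hr

theorem bad_inv (i : (Σ k : ℕ, (Fin k → ℤ[X])) × Bool) (d m : ℤ) (hm : m ≠ 0) (h : bad i (d * m ^ 2)) : bad i d := by
  obtain ⟨δ, ⟨h1, h2, h3⟩, h4⟩ := h
  refine ⟨δ, ⟨h1, ?_, h3⟩, h4⟩
  refine sq_of _ m hm ?_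
  have : (d * ∏ k, δ k) * m ^ 2 = d * m ^ 2 * ∏ k, δ k := by ring
  rw [this]
  exact h2

theorem count_le (α : ℝ) (P : ℤ[X]) (N : ℕ) (Z : ℤ → Prop) (i : (Σ k : ℕ, (Fin k → ℤ[X])) × Bool)
    (h : ∀ d, Z d → bad i d) : count α P N Z ≤ cnS (Sq (bad i)) α P N := by
  classical
  unfold count cnS
  refine card_le_card fun x hx => ?_
  rw [mem_filter] at hx ⊢
  exact ⟨hx.1, Sq_of_inv (bad i) (bad_inv i) hx.2.1 (h _ hx.2.2)⟩

theorem result (q : ℕ) (hq : 2 ≤ q) :
    (∃ E : Set ℝ, dimH E ≤ ENNReal.ofReal ((q : ℝ) / (q + 1 / (q * 2 ^ (q - 1)))) ∧ ∀ α : ℝ, 0 < α → α ∉ E →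
      ∀ (k : ℕ) (f : Fin k → ℤ[X]),
      ((EvenFactors f ∨ (MixedFactors f ∧ ∀ i, (f i).natDegree ≠ 1)) → Few q α (fun d => ∃ δ, Soluble f d δ)) ∧
      (MixedFactors f → General f → Few q α (fun d => ∃ δ, Soluble f d δ ∧ ¬ ConstantType f δ))) ∧
    (∀ (k : ℕ) (f : Fin k → ℤ[X]),
      ((EvenFactors f ∨ (MixedFactors f ∧ ∀ i, (f i).natDegree ≠ 1)) → ∀ d : ℤ, CurveHasPoint f d ℚ →
        ∃ δ, Soluble f d δ) ∧
      (MixedFactors f → General f → ∀ δ, (∀ k, δ k ≠ 0) → ConstantType f δ → CoveringHasPoint f δ ℚ)) ∧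
    (EvenFactors ex ∧ ∀ d : ℤ, CurveHasPoint ex d ℝ ∧ ∀ (p : ℕ) [Fact p.Prime], CurveHasPoint ex d ℚ_[p]) ∧
    (MixedFactors ex' ∧ (∀ k, (ex' k).natDegree ≠ 1) ∧
      ∀ d : ℤ, CurveHasPoint ex' d ℝ ∧ ∀ (p : ℕ) [Fact p.Prime], CurveHasPoint ex' d ℚ_[p]) := by
  classical
  obtain ⟨hE1, hE2⟩ := MP_d37f77_nt.AlmostAllTwists.result
  obtain ⟨hM1, hM2, hM3⟩ := MP_d37f77_nt.TwoDescentMixedFactors.result
  refine ⟨?_, fun k f => ⟨fun hf d hd => ?_, fun hF hG δ hδ h => ?_⟩, hE2, hM3⟩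
  · have := countable_pol
    obtain ⟨E, hE, hT⟩ := exc_sqf q hq bad
    refine ⟨E, hE, fun α hα hαE k f => ⟨fun hf => ?_, fun hF hG => ?_⟩⟩
    · have hlaw : ∃ ε : ℝ, 0 < ε ∧ ∃ C : ℝ, ∀ X : ℕ, 3 ≤ X →
          ({d : ℤ | d.natAbs ≤ X ∧ (Squarefree d ∧ bad (⟨k, f⟩, false) d)}.ncard : ℝ) ≤
            C * X * (Real.log X) ^ (-ε) := by
        have hb : ∀ d, bad (⟨k, f⟩, false) d ↔ ∃ δ, Soluble f d δ := by
          intro d
          constructor
          · rintro ⟨δ, h, -⟩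
            exact ⟨δ, h⟩
          · rintro ⟨δ, h⟩
            exact ⟨δ, h, fun h' => by simp at h'⟩
        simp only [hb]
        rcases hf with hf | ⟨hf, hl⟩
        · obtain ⟨ε, hε, C, hC⟩ := (hE1 (Fin k) f hf).1
          exact ⟨ε, hε, C, fun X hX => hC X (by omega)⟩
        · exact (hM2 (Fin k) f hf hl).1
      obtain ⟨ε, hε, C, hC⟩ := hlaw
      obtain ⟨η, hη, h1⟩ := hT α hα hαE (⟨k, f⟩, false)
      obtain ⟨C', hC'⟩ := h1 ε C hε hC
      refine ⟨η, ε, C', hη, hε, ?_⟩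
      filter_upwards [hC'] with N hN
      intro P h2 h3 h4
      refine le_trans ?_ (hN P h2 h3 h4)
      have h5 : count α P N (fun d => ∃ δ, Soluble f d δ) ≤ cnS (Sq (bad (⟨k, f⟩, false))) α P N := by
        refine count_le α P N _ (⟨k, f⟩, false) fun d h => ?_
        obtain ⟨δ, h⟩ := h
        exact ⟨δ, h, fun h' => by simp at h'⟩
      exact_mod_cast h5
    · obtain ⟨ε, hε, C, hC⟩ := (hM1 (Fin k) f hF hG).1
      obtain ⟨η, hη, h1⟩ := hT α hα hαE (⟨k, f⟩, true)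
      obtain ⟨C', hC'⟩ := h1 ε C hε (fun Y hY => by
        refine le_trans (le_of_eq ?_) (hC Y hY)
        congr 2
        ext d
        constructor
        · rintro ⟨h1, h2, δ, h3, h4⟩
          exact ⟨h1, h2, δ, h3, h4 rfl⟩
        · rintro ⟨h1, h2, δ, h3, h4⟩
          exact ⟨h1, h2, δ, h3, fun _ => h4⟩)
      refine ⟨η, ε, C', hη, hε, ?_⟩
      filter_upwards [hC'] with N hN
      intro P h2 h3 h4
      refine le_trans ?_ (hN P h2 h3 h4)
      have h5 : count α P N (fun d => ∃ δ, Soluble f d δ ∧ ¬ ConstantType f δ) ≤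
          cnS (Sq (bad (⟨k, f⟩, true))) α P N := by
        refine count_le α P N _ (⟨k, f⟩, true) fun d h => ?_
        obtain ⟨δ, h, h'⟩ := h
        exact ⟨δ, h, fun _ => h'⟩
      exact_mod_cast h5
  · rcases hf with hf | ⟨hf, hl⟩
    · exact (hE1 (Fin k) f hf).2 d hd
    · exact (hM2 (Fin k) f hf hl).2 d hd
  · exact (hM1 (Fin k) f hF hG).2 δ hδ h

end Pool.Agent.Results.MP_d37f77_nt.DescentAlongRealMultiples
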