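import Pool.Agent.Q51.SE.All
import Pool.Agent.Q51.SE.Desc

/-!
# The Hasse principle fails for 100% of the everywhere locally soluble twists of Fermat curves

Let `f ∈ ℤ[x]` be irreducible over `ℚ`, of degree `n`, let `F(x, w)` be its homogenisation, let `q` be an odd
prime and `m` an integer with `q ∣ m ∣ n`, and let `C_D : D y ^ m = F(x, w)` be the twists of the superelliptic
curve `y ^ m = f(x)`, smooth curves in the weighted projective plane of weights `(1, 1, n/m)`.  Suppose that any
two different complex zeros of `f` generate a field containing the `q`-th roots of unity.  For example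
`f = a x ^ n + b`, `n = m` a power of `q`: then the `C_D` are the Fermat curves `D y ^ n = a x ^ n + b w ^ n`
(for `n = 3` diagonal cubics, curves of genus one).

Let `L = ℚ[X]/(f) = ℚ(θ)`.  The curves `x - θ w = δ η ^ q` over `C_D`, where `δ, η ∈ L` and `a N(δ)` is `D`
times a `q`-th power (`a` the leading coefficient of `f`), are coverings of `C_D` which are finite, étale and
abelian of exponent `q` over an algebraic closure; by the factorisation `q = ± (1 - ζ) ^ (q - 1) * unit` of the
multiplication by `q` the `q`-coverings of `C_D` (`m = q`) factor through these.  Every rational point of `C_D`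
lifts to a rational point of one of them.

**Theorem.**  There are `δ > 0` and `C` such that for all `X ≥ 3` there are at most `C (log X)^(-δ) E(X)`
squarefree `D` with `|D| ≤ X` for which one of these coverings of `C_D` has points everywhere locally; here
`E(X)` is the number of the squarefree `D` with `|D| ≤ X` for which `C_D` has points everywhere locally.
If `C_D` is everywhere locally soluble for some squarefree `D`, then `E(X) ≥ c X / log X * exp (∑ 1/l)` for
large `X`, the sum over the primes `l ≤ X` modulo which `f` has a zero.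

So 100% of the everywhere locally soluble twists are counterexamples to the Hasse principle, and these
counterexamples are explained by finite descent.

Proof.  A locally soluble covering gives an adelic point of `C_D` which is orthogonal to all classes
`Cor_{L/ℚ} (χ, x - θ w)`, `χ` a character of order `q` of the idele class group of `L` that is trivial on the
ideles of `ℚ`, and the theorem follows from `MP_308fa9_nt.EmptyForFermatTwists` (duality, reduction by the class
group and the units to integers `α` of `L` with `|σ α| ≤ C |D| ^ (1/n)` for all `σ`, and the large sieve in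
dimension `n`; Weil's bound for character sums for the lower bound for `E(X)`).

(helper51, with lemmas of helper26, helper65, helper68, helper198, helper210, helper241, helper251, helper277,
and for the projects EL and EB of helper38, helper52, helper58, helper91, helper154, helper187, helper239,
helper247.)
-/

set_option autoImplicit false

namespace Pool.Agent.Results.MP_d37f77_nt.LocallySolubleFermatTwists

open Polynomial Finset

/-- The homogenisation `F(x, w) = ∑ i, a i * x ^ i * w ^ (n - i)` of `f = ∑ i, a i * x ^ i`, where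
`n = deg f`. -/
noncomputable def hom (f : ℤ[X]) {R : Type*} [CommRing R] (x w : R) : R :=
  ∑ i ∈ range (f.natDegree + 1), (f.coeff i : R) * x ^ i * w ^ (f.natDegree - i)

/-- The curve `C_D : D * y ^ m = F(x, w)` has a point over the field `K`. -/
def CurvePoint (f : ℤ[X]) (m : ℕ) (D : ℤ) (K : Type) [Field K] : Prop :=
  ∃ x w y : K, (x ≠ 0 ∨ w ≠ 0) ∧ (D : K) * y ^ m = hom f x w

/-- The curve `C_D` has points over `ℝ` and over `ℚ_p` for all primes `p`. -/
def LocallySoluble (f : ℤ[X]) (m : ℕ) (D : ℤ) : Prop :=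
  CurvePoint f m D ℝ ∧ ∀ (p : ℕ) [Fact p.Prime], CurvePoint f m D ℚ_[p]

/-- The covering `x - θ w = d(θ) * η ^ q` of `C_D` has a point over the field `K`; here `θ` is the class of
`X` in the algebra `K[X]/(f)` and `η = g(θ)` is an element of this algebra. -/
def CoveringPoint (f : ℤ[X]) (q m : ℕ) (D : ℤ) (d : ℚ[X]) (K : Type) [Field K] [CharZero K] : Prop :=
  ∃ (x w y : K) (g : K[X]), (x ≠ 0 ∨ w ≠ 0) ∧ (D : K) * y ^ m = hom f x w ∧
    f.map (Int.castRingHom K) ∣ C x - C w * X - d.map (Rat.castHom K) * g ^ q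

/-- Some covering `x - θ w = d(θ) * η ^ q` of `C_D`, where `d(θ)` is invertible in `ℚ[X]/(f)` and
`a * N(d(θ))` is `D` times a `q`-th power, has points over `ℝ` and over `ℚ_p` for all primes `p`. -/
def SelmerNonempty (f : ℤ[X]) (q m : ℕ) (D : ℤ) : Prop :=
  ∃ d : ℚ[X], IsCoprime (f.map (Int.castRingHom ℚ)) d ∧
    (∃ z : ℚ, (f.leadingCoeff : ℚ) *
      Algebra.norm ℚ (AdjoinRoot.mk (f.map (Int.castRingHom ℚ)) d) = D * z ^ q) ∧
    CoveringPoint f q m D d ℝ ∧ ∀ (p : ℕ) [Fact p.Prime], CoveringPoint f q m D d ℚ_[p]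

/-- Any two different complex zeros of `f` generate a field that contains the `q`-th roots of unity. -/
def RootsOfUnityCondition (f : ℤ[X]) (q : ℕ) : Prop :=
  ∀ x y : ℂ, aeval x f = 0 → aeval y f = 0 → x ≠ y →
    ∃ ζ ∈ IntermediateField.adjoin ℚ ({x, y} : Set ℂ), IsPrimitiveRoot ζ q

/-- The primes `l ≤ X` modulo which `f` has a zero. -/
def rootPrimes (f : ℤ[X]) (X : ℝ) : Set ℕ :=
  {l : ℕ | l.Prime ∧ (l : ℝ) ≤ X ∧ ∃ r : ℤ, (l : ℤ) ∣ f.eval r}

/-- The number of the squarefree `D` with `|D| ≤ X` and the property `P`. -/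
noncomputable def count (P : ℤ → Prop) (X : ℝ) : ℕ :=
  {D : ℤ | Squarefree D ∧ |(D : ℝ)| ≤ X ∧ P D}.ncard

theorem result (f : ℤ[X]) (hf : Irreducible (f.map (Int.castRingHom ℚ)))
    (q m : ℕ) (hq : q.Prime) (hq2 : q ≠ 2) (hqm : q ∣ m) (hmn : m ∣ f.natDegree)
    (hrou : RootsOfUnityCondition f q) :
    (∀ D : ℤ, CurvePoint f m D ℚ → SelmerNonempty f q m D) ∧
    (∀ D : ℤ, SelmerNonempty f q m D → LocallySoluble f m D) ∧
    (∃ δ C : ℝ, 0 < δ ∧ ∀ X : ℝ, 3 ≤ X →
      (count (SelmerNonempty f q m) X : ℝ) ≤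
        C * Real.log X ^ (-δ) * (count (LocallySoluble f m) X : ℝ)) ∧
    ((∃ D : ℤ, Squarefree D ∧ LocallySoluble f m D) →
      ∃ c X₀ : ℝ, 0 < c ∧ ∀ X : ℝ, X₀ ≤ X →
        c * X / Real.log X * Real.exp (∑' l : rootPrimes f X, (1 : ℝ) / (l : ℕ)) ≤
          (count (LocallySoluble f m) X : ℝ)) ∧
    (∀ a b : ℤ, a ≠ 0 → b ≠ 0 → ∀ k : ℕ, RootsOfUnityCondition (C a * X ^ (q ^ k) + C b) q) := by
  classical
  obtain ⟨-, -, -, h4, h5⟩ := Pool.Agent.Q51.SE.result_of Pool.Agent.Q51.SE.t_val
    Pool.Agent.Q51.SE.t_finp Pool.Agent.Q51.SE.t_upq f hf q m hq hq2 hqm hmn hrou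
  have hnd : (f.map (Int.castRingHom ℚ)).natDegree = f.natDegree :=
    natDegree_map_eq_of_injective (Int.castRingHom ℚ).injective_int f
  have hnpos : 0 < f.natDegree := by
    rw [← hnd]; exact hf.natDegree_pos
  have hq3 : 3 ≤ q := by
    have := hq.two_le
    omega
  have hn3 : 3 ≤ f.natDegree := hq3.trans (Nat.le_of_dvd hnpos (hqm.trans hmn))
  have hf0 : f ≠ 0 := by
    rintro rfl
    simp at hn3
  have hels : ∀ D : ℤ, LocallySoluble f m D ↔ Nonempty (Pool.Agent.Q51.SE.AdelicPoint f m D) := by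
    intro D
    constructor
    · rintro ⟨⟨x, w, y, h1, h2⟩, hp⟩
      choose x' w' y' h3 h4 using fun p : Nat.Primes => hp (p : ℕ)
      exact ⟨⟨⟨x, w, y, h1, h2⟩, fun p => ⟨x' p, w' p, y' p, h3 p, h4 p⟩⟩⟩
    · rintro ⟨P⟩
      refine ⟨⟨P.re.x, P.re.w, P.re.y, P.re.ne, P.re.eq⟩, fun p hp => ?_⟩
      exact ⟨(P.pa ⟨p, hp.out⟩).x, (P.pa ⟨p, hp.out⟩).w, (P.pa ⟨p, hp.out⟩).y,
        (P.pa ⟨p, hp.out⟩).ne, (P.pa ⟨p, hp.out⟩).eq⟩
  have hcE : ∀ X : ℝ, count (LocallySoluble f m) X =
      Pool.Agent.Q51.SE.count (fun D => Nonempty (Pool.Agent.Q51.SE.AdelicPoint f m D)) X := by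
    intro X
    unfold count Pool.Agent.Q51.SE.count
    congr 1
    ext D
    simp only [Set.mem_ofPred_eq, hels]
  have hsel : ∀ D : ℤ, D ≠ 0 → SelmerNonempty f q m D →
      ∃ P : Pool.Agent.Q51.SE.AdelicPoint f m D, Pool.Agent.Q51.SE.Orthogonal q P := by
    rintro D hD ⟨d, hd, hN, ⟨x, w, y, g, h1, h2, -⟩, hp⟩
    exact Pool.Agent.Q51.SE.orth_of_cov Pool.Agent.Q51.SE.t_val hf hq hqm hD d hd hN
      ⟨x, w, y, h1, h2⟩ (fun p => hp (p : ℕ))
  refine ⟨?_, ?_, ?_, ?_, fun a b ha hb k => Pool.Agent.Q51.SE.fermat_cond hq k ha hb⟩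
  · rintro D ⟨x, w, y, h1, h2⟩
    have hcop := Pool.Agent.Q51.SE.isUnit_lin hf (by omega) h1
    have hcov : ∀ (K : Type) [Field K] [CharZero K],
        CoveringPoint f q m D (C x - C w * X) K := by
      intro K _ _
      refine ⟨x, w, y, 1, ?_, ?_, ?_⟩
      · rcases h1 with h | h
        · left; exact_mod_cast h
        · right; exact_mod_cast h
      · have h := congrArg (fun t : ℚ => (t : K)) h2
        simp only [hom] at h ⊢
        push_cast at h
        exact h
      · simp
    refine ⟨C x - C w * X, hcop, ⟨y ^ (m / q), ?_⟩, hcov ℝ, fun p _ => hcov ℚ_[p]⟩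
    have h3 : (y : ℚ) ^ m = (y ^ (m / q)) ^ q := by
      rw [← pow_mul, Nat.div_mul_cancel hqm]
    rw [← h3]
    exact (Pool.Agent.Q58.EB.norm_lin (F := ℚ) hf0 x w).trans h2.symm
  · rintro D ⟨d, hd, hN, ⟨x, w, y, g, h1, h2, -⟩, hp⟩
    refine ⟨⟨x, w, y, h1, h2⟩, fun p _ => ?_⟩
    obtain ⟨x, w, y, g, h1, h2, -⟩ := hp p
    exact ⟨x, w, y, h1, h2⟩
  · obtain ⟨δ, C, hδ, h⟩ := h4
    refine ⟨δ, C, hδ, fun X hX => ?_⟩
    rw [hcE]
    refine le_trans ?_ (h X hX)
    have hle : count (SelmerNonempty f q m) X ≤ Pool.Agent.Q51.SE.count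
        (fun D => ∃ P : Pool.Agent.Q51.SE.AdelicPoint f m D, Pool.Agent.Q51.SE.Orthogonal q P) X := by
      unfold count Pool.Agent.Q51.SE.count
      apply Set.ncard_le_ncard
      · rintro D ⟨hD1, hD2, hD3⟩
        exact ⟨hD1, hD2, hsel D hD1.ne_zero hD3⟩
      · have hfin := Pool.Agent.Q51.EL.fin_sq X (fun D => Squarefree D ∧
          ∃ P : Pool.Agent.Q51.SE.AdelicPoint f m D, Pool.Agent.Q51.SE.Orthogonal q P)
        refine hfin.subset ?_
        rintro D ⟨hD1, hD2, hD3⟩
        have h2 : (D.natAbs : ℝ) ≤ X := by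
          simpa only [Nat.cast_natAbs, Int.cast_abs] using hD2
        exact ⟨h2, hD1, hD3⟩
    exact_mod_cast hle
  · rintro ⟨D, hD, hE⟩
    obtain ⟨c, X0, hc, h⟩ := h5 ⟨D, hD, (hels D).mp hE⟩
    refine ⟨c, X0, hc, fun X hX => ?_⟩
    rw [hcE]
    exact h X hX

end Pool.Agent.Results.MP_d37f77_nt.LocallySolubleFermatTwists
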