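import Pool.Agent.Q51.EL.All

/-!
# The Hasse principle fails for 100% of the everywhere locally soluble quadratic twists

Let `f ∈ ℤ[x]` be irreducible over `ℚ`, of even degree `n ≥ 6`, let `F(x, w)` be its homogenisation
and let `C_D : D y² = F(x, w)` be the quadratic twists of the hyperelliptic curve `y² = f(x)` of genus
`n/2 - 1 ≥ 2`.  For almost all squarefree `D` there is a prime `p ∣ D` modulo which `f` has no zero,
and then `C_D(ℚ_p)` is empty; the question is what happens for the other `D`.

**Theorem.**  There are `δ > 0` and `C` such that for all `X ≥ 3` the 2-Selmer set of `C_D` is nonempty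
for at most `C (log X)^(-δ) E(X)` squarefree `D` with `|D| ≤ X`, where `E(X)` is the number of the
squarefree `D` with `|D| ≤ X` for which `C_D` is everywhere locally soluble.  Moreover
`E(X) ≥ c X / log X * exp (∑ 1/q)` for large `X`, the sum over the primes `q ≤ X` modulo which `f` has a
zero.

So for 100% of the everywhere locally soluble twists `C_D` no 2-covering of `C_D` has points everywhere
locally; in particular `C_D(ℚ)` is empty, `C_D` is a counterexample to the Hasse principle, and this
counterexample is explained by finite descent with `n = 2`.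

The 2-coverings of `C_D` are (up to the involution `y ↦ -y`) the curves `x - θ w = δ η²` with
`δ, η ∈ ℚ[X]/(f)`, `θ` the class of `X`, where `D a N(δ)` is a square (`a` the leading coefficient of
`f`, `N` the norm).

Proof.  Let `L = ℚ(θ)`.  From an everywhere locally soluble covering one gets, by the finiteness of the
class group and the unit theorem, an integral element `α` of `L`, with `|σ α| ≤ C |D|^(1/n)` for all
`σ : L → ℂ`, which determines `D`, and which satisfies at all primes `l` outside a finite set: `α` is a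
unit at `l`, or it lies in exactly one prime `v₀` above `l`, this has degree one, and for some `c, r ∈ ℤ`
with `a θ ≡ r mod v₀` the numbers `c α (r - a θ)` are squares modulo all other primes above `l`.
The second case leaves only `≤ l^(n-1) N 2^(2-s)` classes modulo `l`, if there are `s` primes above `l`
and `N` of them have degree one.  The large sieve in dimension `n`, and Chebotarev's and Mertens'
theorems, give the upper bound `C X (log X)^(-1-δ) exp (∑ 1/q)` for the number of the `α`.  (This would
be false for `n = 4`.)  The lower bound for `E(X)`: products of primes modulo which `f` has a zero, in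
one square class modulo the bad primes, and Weil's bound for the number of points over finite fields.

(helper51, with lemmas of helper52, helper91, helper154, helper198, helper239, helper241, helper247.)
-/

set_option autoImplicit false

namespace Pool.Agent.Results.MP_d37f77_nt.LocallySolubleTwists

open Polynomial Finset

/-- The homogenisation `F(x, w) = ∑ i, a i * x ^ i * w ^ (n - i)` of `f = ∑ i, a i * x ^ i`, where
`n = deg f`. -/
noncomputable def hom (f : ℤ[X]) {R : Type*} [CommRing R] (x w : R) : R :=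
  ∑ i ∈ range (f.natDegree + 1), (f.coeff i : R) * x ^ i * w ^ (f.natDegree - i)

/-- The curve `C_D : D * y ^ 2 = F(x, w)` has a point over the field `F`. -/
def CurvePoint (f : ℤ[X]) (D : ℤ) (F : Type) [Field F] : Prop :=
  ∃ x w y : F, (x ≠ 0 ∨ w ≠ 0) ∧ (D : F) * y ^ 2 = hom f x w

/-- The curve `C_D` has points over `ℝ` and over `ℚ_p` for all primes `p`. -/
def LocallySoluble (f : ℤ[X]) (D : ℤ) : Prop :=
  CurvePoint f D ℝ ∧ ∀ (p : ℕ) [Fact p.Prime], CurvePoint f D ℚ_[p]

/-- The curve `x - θ w = d(θ) η²` has a point over the field `F`; here `θ` is the class of `X` in the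
algebra `F[X]/(f)` and `η = g(θ)` is an element of this algebra. -/
def CoveringPoint (f : ℤ[X]) (d : ℚ[X]) (F : Type) [Field F] [CharZero F] : Prop :=
  ∃ (x w : F) (g : F[X]), (x ≠ 0 ∨ w ≠ 0) ∧
    f.map (Int.castRingHom F) ∣ C x - C w * X - d.map (Rat.castHom F) * g ^ 2

/-- The 2-Selmer set of `C_D` is nonempty: some 2-covering `x - θ w = d(θ) η²` of `C_D`, where `d(θ)` is
invertible in `ℚ[X]/(f)` and `D * a * N(d(θ))` is a square, has points over `ℝ` and over `ℚ_p` for all
primes `p`. -/
def SelmerNonempty (f : ℤ[X]) (D : ℤ) : Prop :=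
  ∃ d : ℚ[X], IsCoprime (f.map (Int.castRingHom ℚ)) d ∧
    IsSquare (((D * f.leadingCoeff : ℤ) : ℚ) *
      Algebra.norm ℚ (AdjoinRoot.mk (f.map (Int.castRingHom ℚ)) d)) ∧
    CoveringPoint f d ℝ ∧ ∀ (p : ℕ) [Fact p.Prime], CoveringPoint f d ℚ_[p]

/-- The primes `q ≤ X` modulo which `f` has a zero. -/
def rootPrimes (f : ℤ[X]) (X : ℝ) : Set ℕ :=
  {q : ℕ | q.Prime ∧ (q : ℝ) ≤ X ∧ ∃ r : ℤ, (q : ℤ) ∣ f.eval r}

/-- The number of the squarefree `D` with `|D| ≤ X` and the property `P`. -/
noncomputable def count (P : ℤ → Prop) (X : ℝ) : ℕ :=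
  {D : ℤ | Squarefree D ∧ |(D : ℝ)| ≤ X ∧ P D}.ncard

theorem result (f : ℤ[X]) (hf : Irreducible (f.map (Int.castRingHom ℚ))) (hev : Even f.natDegree)
    (hn : 6 ≤ f.natDegree) :
    (∀ D : ℤ, CurvePoint f D ℚ → SelmerNonempty f D) ∧
    (∀ D : ℤ, D ≠ 0 → SelmerNonempty f D → LocallySoluble f D) ∧
    (∃ δ C : ℝ, 0 < δ ∧ ∀ X : ℝ, 3 ≤ X →
      (count (SelmerNonempty f) X : ℝ) ≤
        C * Real.log X ^ (-δ) * (count (LocallySoluble f) X : ℝ)) ∧
    (∃ c X₀ : ℝ, 0 < c ∧ ∀ X : ℝ, X₀ ≤ X →
      c * X / Real.log X * Real.exp (∑' q : rootPrimes f X, (1 : ℝ) / (q : ℕ)) ≤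
        (count (LocallySoluble f) X : ℝ)) := by
  classical
  obtain ⟨h1, h2, ⟨δ, C, hδ, h3⟩, c, X0, hc, h4⟩ := Pool.Agent.Q51.EL.main f hf hev hn
  have hcount : ∀ (P : ℤ → Prop) (X : ℝ),
      {D : ℤ | (D.natAbs : ℝ) ≤ X ∧ Squarefree D ∧ P D}.ncard = count P X := by
    intro P X
    unfold count
    congr 1
    ext D
    simp only [Set.mem_setOf_eq, Nat.cast_natAbs, Int.cast_abs]
    tauto
  refine ⟨h2, h1, ⟨δ, C, hδ, fun X hX => ?_⟩, c, X0, hc, fun X hX => ?_⟩
  · rw [← hcount, ← hcount]
    exact h3 X hX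
  · rw [← hcount]
    have h5 := h4 X hX
    rw [Pool.Agent.Q91.EL.Gf_eq] at h5
    have h6 : (∑' q : rootPrimes f X, (1 : ℝ) / (q : ℕ)) =
        ∑ q ∈ (Pool.Agent.Q51.EL.pr X).filter (fun q : ℕ => ∃ r : ℤ, (q : ℤ) ∣ f.eval r),
          (1 : ℝ) / q := by
      have hs : rootPrimes f X = ((Pool.Agent.Q51.EL.pr X).filter
          (fun q : ℕ => ∃ r : ℤ, (q : ℤ) ∣ f.eval r) : Finset ℕ) := by
        ext q
        simp only [rootPrimes, Set.mem_setOf_eq, Finset.coe_filter, Pool.Agent.Q51.EL.pr,
          Finset.mem_filter, Finset.mem_Icc]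
        constructor
        · rintro ⟨ha, hb, hc⟩
          exact ⟨⟨⟨ha.one_le, Nat.le_floor hb⟩, ha⟩, hc⟩
        · rintro ⟨⟨⟨ha, hb⟩, hc⟩, hd⟩
          exact ⟨hc, (Nat.le_floor_iff' hc.ne_zero).1 hb, hd⟩
      rw [hs]
      exact Finset.tsum_subtype _ (fun q : ℕ => (1 : ℝ) / q)
    rw [h6]
    exact h5

end Pool.Agent.Results.MP_d37f77_nt.LocallySolubleTwists
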