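import Mathlib
import Pool.Agent.Results.MP_d37f77_nt.QuarticsInPencils
import Pool.Agent.Q1.RS.UdzL

/-!
# Finite descent explains almost all the missing points, at every member of a thin sequence

For an integer `t` let `A = D(t) u₀(t)`, `B = D(t) u₁(t)` as in `QuarticsInPencils`. For a squarefree
divisor `b₁` of `A B` consider the curve of genus one
`C : N² = b₁ M⁴ - (A + B) M² e² + (A B / b₁) e⁴`, a 2-covering of `y² = x (x - A) (x - B)`. Every
2-covering of `C` factors through one of the `D_d` (`Covering`). Let `ELS A B` be the set of the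
`b₁` for which `C` has points everywhere locally, and `ELSCovered A B` the set of those for which
moreover some `D_d` has points everywhere locally (the others have an empty 2-Selmer set, so no
rational points).

We prove that for `t = ⌊α x_n⌋` only a proportion `(log t) ^ (-η)` of the curves in `ELS A B` can
have a nonempty 2-Selmer set: for almost every `α` at all `n` outside of a set of density zero,
for every sequence with `x_(n+1) ≥ x_n ^ (1 + δ)`; and at all `n`, without exception, for all `α` in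
a set of Hausdorff dimension one.
-/

set_option autoImplicit false

namespace Pool.Agent.Results.MP_d37f77_nt.QuarticsAlongSequences

open Finset Polynomial Filter MeasureTheory

open Pool.Agent.Results.MP_d37f77_nt.QuarticsInPencils (ELS ELSCovered Balanced D)

open Pool.Agent.Results.MP_d37f77_nt.QuarticsInPencils (u κ)

/-- for `A = (D u₀)(t)`, `B = (D u₁)(t)`: the numbers `A`, `B`, `A - B` are nonzero and at most the
proportion `(log (|t| + 2)) ^ (-η)` of the curves in `ELS A B` are in `ELSCovered A B` -/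
def Few {n : Fin 3 → ℕ} {m : ℕ} (a : Fin 3 → ℤ) (f : ∀ k : Fin 3, Fin (n k) → ℤ[X]) (c : ℤ)
    (g : Fin m → ℤ[X]) (η : ℝ) (t : ℤ) : Prop :=
  ∀ A B : ℤ, A = (D c g * u a f 0).eval t → B = (D c g * u a f 1).eval t →
    A ≠ 0 ∧ B ≠ 0 ∧ A ≠ B ∧
    ((ELSCovered A B).ncard : ℝ) ≤ (Real.log (|(t : ℝ)| + 2)) ^ (-η) * ((ELS A B).ncard : ℝ)

open Classical in
/-- **Theorem.** Let `u_k = a_k ∏_{i < n_k} f_{k,i}`, `k = 0, 1, 2`, with `u₀ - u₁ = u₂`, and
`D = c ∏_{i < m} g_i`, where `a_k`, `c` are nonzero and the `n₀ + n₁ + n₂ + m` polynomials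
`f_{k,i}`, `g_i` with integer coefficients are irreducible of positive degree and pairwise
non-associated; assume the balance condition. Let `0 < η < κ log 2`, with the constant `κ` of
`QuarticsInPencils`, and let `δ > 0`.
(1) For every sequence `x_n → ∞` with `x_(n+1) ≥ x_n ^ (1 + δ)` from some `n` on and almost every
real `α`, the set of the `n` such that `Few η` does not hold at `⌊α x_n⌋` has density zero.
(2) For all `y < z` and all sequences with `x_(n+1) ≥ x_n ^ (1 + δ)` for all `n` and `x_0` large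
enough (in terms of `y`, `z`, `δ`, `η` and the polynomials) the set of the `α` in `[y, z]` such that
`Few η` holds at `⌊α x_n⌋` for all `n` has Hausdorff dimension one. -/
theorem result (n : Fin 3 → ℕ) (m : ℕ) (a : Fin 3 → ℤ) (f : ∀ k : Fin 3, Fin (n k) → ℤ[X])
    (c : ℤ) (g : Fin m → ℤ[X]) (ha : ∀ k, a k ≠ 0) (hc : c ≠ 0)
    (hf : ∀ k i, Irreducible (f k i) ∧ 0 < (f k i).natDegree)
    (hg : ∀ i, Irreducible (g i) ∧ 0 < (g i).natDegree)
    (hff : ∀ k i l j, (⟨k, i⟩ : Σ k : Fin 3, Fin (n k)) ≠ ⟨l, j⟩ → ¬ Associated (f k i) (f l j))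
    (hgg : ∀ i j, i ≠ j → ¬ Associated (g i) (g j)) (hfg : ∀ k i j, ¬ Associated (f k i) (g j))
    (hu : u a f 0 - u a f 1 = u a f 2) (hb : Balanced a f c g) (η δ : ℝ) (hη : 0 < η)
    (hηκ : η < κ a f c g * Real.log 2) (hδ : 0 < δ) :
    (∀ x : ℕ → ℝ, Tendsto x atTop atTop → (∀ᶠ n in atTop, x n ^ (1 + δ) ≤ x (n + 1)) →
      ∀ᵐ α : ℝ, ∀ ε : ℝ, 0 < ε → ∀ᶠ N : ℕ in atTop,
        (((range N).filter (fun n => ¬ Few a f c g η ⌊α * x n⌋)).card : ℝ) ≤ ε * N) ∧
    ∀ y z : ℝ, y < z → ∃ X₀ : ℝ, ∀ x : ℕ → ℝ, X₀ ≤ x 0 → (∀ n, x n ^ (1 + δ) ≤ x (n + 1)) →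
      dimH {α : ℝ | y ≤ α ∧ α ≤ z ∧ ∀ n, Few a f c g η ⌊α * x n⌋} = 1 := by
  have hudz : Pool.Agent.Q1.RS.UDZ {t : ℤ | ¬ Few a f c g η t} := by
    refine Pool.Agent.Q1.RS.udz_of_log
      (Y := fun t => ((ELSCovered ((D c g * u a f 0).eval t)
        ((D c g * u a f 1).eval t)).ncard : ℝ))
      (E := fun t => ((ELS ((D c g * u a f 0).eval t) ((D c g * u a f 1).eval t)).ncard : ℝ))
      (P := fun t => (D c g * u a f 0).eval t ≠ 0 ∧ (D c g * u a f 1).eval t ≠ 0 ∧
        (D c g * u a f 0).eval t ≠ (D c g * u a f 1).eval t)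
      (κ := κ a f c g * Real.log 2) (fun t => Nat.cast_nonneg _) ?_ hη hηκ ?_
    · intro δ' ε L hδ' hε
      obtain ⟨M₀, hM₀⟩ := QuarticsInPencils.result.2 n m a f c g ha hc hf hg hff hgg hfg hu hb
        δ' ε L hδ' hε
      refine ⟨M₀, fun N M hM hN => ?_⟩
      refine le_trans (Nat.cast_le.2 (card_le_card fun t ht => ?_)) (hM₀ N M hM hN).2
      obtain ⟨hta, htb⟩ := (@Finset.mem_filter _ _ (_) _ _).1 ht
      refine (@Finset.mem_filter _ _ (_) _ _).2 ⟨hta, fun h => htb ?_⟩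
      obtain ⟨h1, h2, h3, h4⟩ := h _ _ rfl rfl
      exact ⟨⟨h1, h2, h3⟩, h4⟩
    · rintro t ht ⟨⟨h1, h2, h3⟩, h4⟩
      refine ht ?_
      rintro A B rfl rfl
      exact ⟨h1, h2, h3, h4⟩
  refine ⟨fun x hxt hxg => ?_, fun y z hyz => ?_⟩
  · filter_upwards [hudz.freq hδ hxt hxg] with α hα ε hε
    filter_upwards [hα ε hε] with N hN
    refine le_trans (Nat.cast_le.2 (card_le_card fun n hn => ?_)) hN
    exact (@Finset.mem_filter _ _ (_) _ _).2 ((@Finset.mem_filter _ _ (_) _ _).1 hn)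
  · obtain ⟨X₀, hX₀⟩ := hudz.dim hδ hyz
    refine ⟨X₀, fun x hx0 hx => ?_⟩
    rw [← hX₀ x hx0 hx]
    congr 1
    ext α
    simp only [Set.mem_ofPred_eq, not_not]

end Pool.Agent.Results.MP_d37f77_nt.QuarticsAlongSequences
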